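import Mathlib
import Pool.Agent.H8.PCut

set_option autoImplicit false

namespace Pool.Agent.Results.MP_90cb67_lc.CH

open Set Filter

/-- internal subsets of the ultrapower `ℕ^ω / F` -/
def Internal (F : Ultrafilter ℕ) (S : Set (Germ (F : Filter ℕ) ℕ)) : Prop :=
  ∃ A : ℕ → Set ℕ, S = {x | ∃ n : ℕ → ℕ, (n : Germ (F : Filter ℕ) ℕ) = x ∧ {i | n i ∈ A i} ∈ F}

/-- the partition cut `C_P` -/
def Cut (F : Ultrafilter ℕ) (P : ℕ → Set ℕ) : Set (Germ (F : Filter ℕ) ℕ) :=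
  {x | ∃ n : ℕ → ℕ, (n : Germ (F : Filter ℕ) ℕ) = x ∧ ∀ j, BddAbove (n '' P j)}

theorem result (h : Cardinal.continuum.{0} = Cardinal.aleph 1) :
    ∃ (F : Ultrafilter ℕ) (P : ℕ → Set ℕ), (∀ n : ℕ, {n} ∉ F) ∧ (∀ i, ∃! j, i ∈ P j) ∧
      (∀ j, P j ∉ F) ∧ ¬ Internal F (Cut F P) ∧
      ∃ A : ℕ → Set (Germ (F : Filter ℕ) ℕ), (∀ k, Internal F (A k)) ∧ Cut F P = ⋂ k, A k := by
  obtain ⟨V, π, f, h1, h2⟩ := Pool.Agent.H8.PCut.main h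
  have hC : ∀ n : ℕ → ℕ, (n : Germ (V : Filter ℕ) ℕ) ∈ Cut V (fun j => π ⁻¹' {j}) ↔
      ∃ g : ℕ → ℕ, ∀ᶠ i in V, n i ≤ g (π i) := by
    intro n
    refine ⟨fun ⟨m, h3, h4⟩ => ?_, fun ⟨g, hg⟩ => ⟨fun i => min (n i) (g (π i)),
      Germ.coe_eq.2 (hg.mono fun i hi => min_eq_left hi), fun j => ⟨g j, ?_⟩⟩⟩
    · choose g hg using h4
      refine ⟨g, (Germ.coe_eq.1 h3).mono fun i hi => ?_⟩
      rw [← hi]
      exact hg (π i) ⟨i, rfl, rfl⟩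
    · rintro _ ⟨i, hi, rfl⟩
      obtain rfl : π i = j := hi
      exact min_le_right _ _
  have hI : ∀ (A : ℕ → Set ℕ) (n : ℕ → ℕ), (∃ m : ℕ → ℕ, (m : Germ (V : Filter ℕ) ℕ) = n ∧
      {i | m i ∈ A i} ∈ V) ↔ ∀ᶠ i in V, n i ∈ A i := fun A n =>
    ⟨fun ⟨m, h3, h4⟩ => by
      filter_upwards [Germ.coe_eq.1 h3, h4] with i h5 h6 using h5 ▸ h6, fun h3 => ⟨n, rfl, h3⟩⟩
  refine ⟨V, fun j => π ⁻¹' {j}, fun n hn => h1 (π n) (mem_of_superset hn ?_),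
    fun i => ⟨π i, rfl, fun j hj => hj.symm⟩, h1, fun ⟨A, hA⟩ => ?_,
    fun k => {x | ∃ n : ℕ → ℕ, (n : Germ (V : Filter ℕ) ℕ) = x ∧ {i | n i ∈ Iio (f k i)} ∈ V},
    fun k => ⟨_, rfl⟩, ?_⟩
  · rintro _ rfl
    rfl
  · have h3 : ∀ n : ℕ → ℕ, (∃ g : ℕ → ℕ, ∀ᶠ i in V, n i ≤ g (π i)) ↔ ∀ᶠ i in V, n i ∈ A i :=
      fun n => by rw [← hC, hA]; exact hI A n
    have h4 := (h3 0).1 ⟨0, Eventually.of_forall fun i => le_rfl⟩
    obtain ⟨g, hg⟩ := (h3 fun i => sInf (A i)ᶜ - 1).2 (h4.mono fun i hi => by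
      rcases Nat.eq_zero_or_pos (sInf (A i)ᶜ) with h5 | h5
      · rw [h5]; exact hi
      · exact not_not.1 (Nat.notMem_of_lt_sInf (s := (A i)ᶜ) (by omega)))
    have h5 := (h3 fun i => sInf (A i)ᶜ).1 ⟨fun j => g j + 1, hg.mono fun i hi => by simp only; omega⟩
    have h6 := (h2 _).1 ((h3 (f 0)).2 (h5.mono fun i hi => by_contra fun h6 =>
      Nat.sInf_mem (s := (A i)ᶜ) ⟨_, h6⟩ hi)) 0
    exact lt_irrefl _ h6.exists.choose_spec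
  · ext x
    induction x using Germ.inductionOn with
    | h n =>
      rw [hC, h2, mem_iInter]
      exact forall_congr' fun k => (hI (fun i => Iio (f k i)) n).symm

end Pool.Agent.Results.MP_90cb67_lc.CH
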